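import Pool.Agent.TH101.RG.PairZ

set_option autoImplicit false

/-!
# Prime moduli `p` for which all small classes at once contain no small prime

For many primes `p` the numbers `k p + s` are composite for all pairs `(s, k)` of a prescribed set `Z`, which may
contain `(log₂ X)^5` classes `s` and has total weight `c f(X)`, `f` the record scale
`log x (log₂ x)² log₄ x / (log₃ x)²`. The class of `p` modulo a medium prime `r` is chosen as `1/v`, so that
`r ∣ k p + s` if and only if `r ∣ s v + k`; the number of `v` for which `s v + k` has no medium prime factor is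
bounded by the Brun-Titchmarsh inequality (`roughAP`) and a bound for smooth numbers. Greedy nonzero classes are used
for the small primes, and `c log X` pairs are left to the repelling weights of the starting files; the
Bombieri-Vinogradov theorem counts the primes `p`.
-/

open Filter

namespace Pool.Agent.Results.MP_e1dc24_nt.AllSmallClasses

/-- The record scale `f(x) = log x (log₂ x)² log₄ x / (log₃ x)²` (iterated natural logarithms). -/
noncomputable def f (x : ℝ) : ℝ :=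
  Real.log x * (Real.log (Real.log x)) ^ 2 * Real.log (Real.log (Real.log (Real.log x))) /
    (Real.log (Real.log (Real.log x))) ^ 2

/-- For all `A`, `J` and squarefree `d` there is `c > 0` such that for all large `X`, all `h` prime to `d` and all
finite sets `Z` of pairs `(s, k)` of nonzero integers with `|s| ≤ (log₂ X)^5`, `|k| ≤ log X (log₂ X)^A` and
`∑ (|s| / φ(|s|))² (|k| / φ(|k|)) ≤ c f(X)`: at least `X^(9/10)` primes `p ∈ (X, 3X]`, `p ≡ h (mod d)`, are such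
that `j q ≠ k p + s` for all `(s, k) ∈ Z`, all primes `q` and all integers `j` with `1 ≤ |j| ≤ J`. -/
theorem result (A J : ℕ) (d : ℕ) (hd : Squarefree d) : ∃ c : ℝ, 0 < c ∧ ∃ X₀ : ℝ, ∀ X : ℝ, X₀ ≤ X →
    ∀ h : ℕ, h.Coprime d → ∀ Z : Finset (ℤ × ℤ),
    (∀ z ∈ Z, z.1 ≠ 0 ∧ z.2 ≠ 0 ∧ |(z.1 : ℝ)| ≤ (Real.log (Real.log X)) ^ 5 ∧
      |(z.2 : ℝ)| ≤ Real.log X * (Real.log (Real.log X)) ^ A) →
    ∑ z ∈ Z, ((z.1.natAbs : ℝ) / (z.1.natAbs.totient : ℝ)) ^ 2 *
      ((z.2.natAbs : ℝ) / (z.2.natAbs.totient : ℝ)) ≤ c * f X →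
    X ^ (9 / 10 : ℝ) ≤ ({p : ℕ | p.Prime ∧ X < p ∧ (p : ℝ) ≤ 3 * X ∧ p ≡ h [MOD d] ∧
      ∀ z ∈ Z, ∀ j : ℤ, 1 ≤ |j| → |j| ≤ J → ∀ q : ℕ, q.Prime → j * q ≠ z.2 * p + z.1}.ncard : ℝ) := by
  obtain ⟨c, hc, hX⟩ := Pool.Agent.TH101.RG.classes_pairs A J d hd
  obtain ⟨X₀, hX₀⟩ := eventually_atTop.1 hX
  refine ⟨c, hc, X₀, fun X hXX h hh Z hZ hZw => ?_⟩
  set S := {p : ℕ | p.Prime ∧ X < p ∧ (p : ℝ) ≤ 3 * X ∧ p ≡ h [MOD d] ∧
      ∀ z ∈ Z, ∀ j : ℤ, 1 ≤ |j| → |j| ≤ J → ∀ q : ℕ, q.Prime → j * q ≠ z.2 * p + z.1} with hS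
  have hfin : S.Finite := by
    apply (Set.finite_Iic ⌊3 * X⌋₊).subset
    intro p hp
    exact Set.mem_Iic.2 (Nat.le_floor hp.2.2.1)
  by_contra hcon
  push Not at hcon
  rw [Set.ncard_eq_toFinset_card S hfin] at hcon
  obtain ⟨p, hp, hXp, hp3, hpb, hpd, hmain⟩ := hX₀ X hXX h hh Z hZ hZw hfin.toFinset hcon.le
  apply hpb
  rw [Set.Finite.mem_toFinset]
  exact ⟨hp, hXp, hp3, hpd, hmain⟩

end Pool.Agent.Results.MP_e1dc24_nt.AllSmallClasses
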