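import Pool.Agent.TH926.FFR.Rat

/-!
# The least primes in the residue classes of fixed rational numbers

For all but few of the rational numbers `r` of height at most `Q^B`, `B` arbitrary, the least prime
`≡ r (mod q)` is at most `q (log q)^C` for almost all `q ≤ Q` with boundedly many prime factors, and at
most `q exp (C (log log q)^2)` for almost all `q ≤ Q`; uniform version for separated families of
residue systems.
-/

set_option autoImplicit false

namespace Pool.Agent.Results.MP_e1dc24_nt.FewFixedResidues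

open Finset

/-- some prime `p ≡ a (mod q)` is at most `y`, i.e. `p(a, q) ≤ y` -/
def HasPrime (a q : ℕ) (y : ℝ) : Prop := ∃ p : ℕ, p.Prime ∧ p ≡ a [MOD q] ∧ (p : ℝ) ≤ y

/-- some prime `p ≡ r (mod q)`, i.e. `den(r) p ≡ num(r) (mod q)`, is at most `y` -/
def HasPrimeRat (r : ℚ) (q : ℕ) (y : ℝ) : Prop :=
  ∃ p : ℕ, p.Prime ∧ (r.den * p : ℤ) ≡ r.num [ZMOD q] ∧ (p : ℝ) ≤ y

/-- all but at most `w` of the moduli `q ≤ Q` satisfy `R` -/
def AllButMod (Q : ℕ) (w : ℝ) (R : ℕ → Prop) : Prop :=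
  ∀ T : Finset ℕ, (∀ q ∈ T, 1 ≤ q ∧ q ≤ Q ∧ ¬ R q) → (T.card : ℝ) ≤ w

/-- all but at most `w` of the rational numbers `r` with `|num(r)|, den(r) ≤ H` satisfy `R` -/
def AllButRat (H w : ℝ) (R : ℚ → Prop) : Prop :=
  ∀ T : Finset ℚ, (∀ r ∈ T, |(r.num : ℝ)| ≤ H ∧ (r.den : ℝ) ≤ H ∧ ¬ R r) → (T.card : ℝ) ≤ w

/-- the residue systems `c i : q ↦ c i q`, `i ∈ I`, are separated: for all `i ≠ j` some nonzero integer
`D ≤ M` is divisible by all the `q ≤ Q` modulo which `c i` and `c j` are the same class prime to `q` -/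
def Separated {ι : Type} (I : Finset ι) (c : ι → ℕ → ℕ) (Q : ℕ) (M : ℝ) : Prop :=
  ∀ i ∈ I, ∀ j ∈ I, i ≠ j → ∃ D : ℕ, D ≠ 0 ∧ (D : ℝ) ≤ M ∧
    ∀ q ∈ Icc 1 Q, (c i q).Coprime q → (c j q).Coprime q → c i q ≡ c j q [MOD q] → q ∣ D

/-- **The least primes in the residue classes of fixed rational numbers.** Let `B ≥ 0` and `V ≥ 0`.

1. There is `C` such that for all large `Q` and all `1 ≤ y ≤ Q`: if the residue systems `c i`, `i ∈ I`,
are separated with `M = Q^B`, and if none of them has the property that for all but at most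
`Q / (log Q)^V` of the `q ≤ Q`, `p(c i q, q) ≤ Q y (log Q)^C` if `c i q` is prime to `q` and
`(C log Q)^ω(q) ≤ y`, then `|I| ≤ Q / (y (log Q)^V)`.

2. For all `k` there is `C` such that for all large `Q` the following holds for all but at most
`Q / (log Q)^V` of the rational numbers `r` with `|num(r)|, den(r) ≤ Q^B`: for all but at most
`Q / (log Q)^V` of the `q ≤ Q`, if `q` is prime to `num(r) den(r)` and has at most `k` prime factors,
then some prime `p ≡ r (mod q)` is at most `q (log q)^C`.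

3. There is `C` such that for all large `Q` the following holds for all but at most
`Q / exp (V (log log Q)^2)` of the rational numbers `r` with `|num(r)|, den(r) ≤ Q^B`: for all but at
most `Q / (log Q)^V` of the `q ≤ Q`, if `q` is prime to `num(r) den(r)`, then some prime
`p ≡ r (mod q)` is at most `q exp (C (log log q)^2)`. -/
theorem result (B : ℝ) (hB : 0 ≤ B) (V : ℕ) :
    (∃ C Q₀ : ℕ, ∀ Q : ℕ, Q₀ ≤ Q → ∀ y : ℝ, 1 ≤ y → y ≤ Q →
      ∀ (ι : Type) (I : Finset ι) (c : ι → ℕ → ℕ), Separated I c Q ((Q : ℝ) ^ B) →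
        (∀ i ∈ I, ¬ AllButMod Q (Q / Real.log Q ^ V) fun q =>
          (c i q).Coprime q → (C * Real.log Q) ^ q.primeFactors.card ≤ y →
            HasPrime (c i q) q (Q * y * Real.log Q ^ C)) →
        (I.card : ℝ) ≤ Q / (y * Real.log Q ^ V)) ∧
    (∀ k : ℕ, ∃ C Q₀ : ℕ, ∀ Q : ℕ, Q₀ ≤ Q →
      AllButRat ((Q : ℝ) ^ B) (Q / Real.log Q ^ V) fun r =>
        AllButMod Q (Q / Real.log Q ^ V) fun q =>
          (r.num.natAbs * r.den).Coprime q → q.primeFactors.card ≤ k →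
            HasPrimeRat r q (q * Real.log q ^ C)) ∧
    (∃ C Q₀ : ℕ, ∀ Q : ℕ, Q₀ ≤ Q →
      AllButRat ((Q : ℝ) ^ B) (Q / Real.exp (V * Real.log (Real.log Q) ^ 2)) fun r =>
        AllButMod Q (Q / Real.log Q ^ V) fun q =>
          (r.num.natAbs * r.den).Coprime q →
            HasPrimeRat r q (q * Real.exp (C * Real.log (Real.log q) ^ 2))) := by
  classical
  have hsep : ∀ (Q : ℕ), 2 ≤ Q → ∀ A : Finset ℚ,
      (∀ r ∈ A, |(r.num : ℝ)| ≤ (Q : ℝ) ^ B ∧ (r.den : ℝ) ≤ (Q : ℝ) ^ B) →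
      Pool.Agent.TH926.FFR.Sep A Pool.Agent.TH926.FFR.cls (Icc 1 Q) ((Q : ℝ) ^ (2 * B + 1)) := by
    intro Q hQ A hA
    exact Pool.Agent.TH926.FFR.sep_rat A Q _ fun r hr s hs =>
      Pool.Agent.TH926.FFR.height_bound hB hQ (hA r hr).1 (hA r hr).2 (hA s hs).1 (hA s hs).2
  refine ⟨?_, fun k => ?_, ?_⟩
  · obtain ⟨C, _, Q0, h⟩ := Pool.Agent.TH926.FFR.least_y B hB V
    refine ⟨C, Q0, fun Q hQ y hy1 hyQ ι I c hS hI => h Q hQ y hy1 hyQ ι I c hS fun i hi => ?_⟩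
    have h3 := hI i hi
    unfold AllButMod at h3
    push Not at h3
    obtain ⟨T, hT, hTc⟩ := h3
    refine ⟨T, hTc, fun q hq => ?_⟩
    obtain ⟨t1, t2, t3, t4, t5⟩ := hT q hq
    exact ⟨mem_Icc.2 ⟨t1, t2⟩, t3, t4, t5⟩
  · obtain ⟨C, Q0, h⟩ := Pool.Agent.TH926.FFR.fixed_k (2 * B + 1) (by linarith) k V
    refine ⟨C, max Q0 2, fun Q hQ A hA => h Q ((le_max_left _ _).trans hQ) ℚ A
      Pool.Agent.TH926.FFR.cls
      (hsep Q ((le_max_right _ _).trans hQ) A fun r hr => ⟨(hA r hr).1, (hA r hr).2.1⟩)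
      fun r hr => ?_⟩
    have h3 := (hA r hr).2.2
    unfold AllButMod at h3
    push Not at h3
    obtain ⟨T, hT, hTc⟩ := h3
    refine ⟨T, hTc, fun q hq => ?_⟩
    obtain ⟨t1, t2, t3, t4, t5⟩ := hT q hq
    refine ⟨mem_Icc.2 ⟨t1, t2⟩, Pool.Agent.TH926.FFR.cls_coprime t1 t3, t4, ?_⟩
    rintro ⟨p, hp, hpa, hpy⟩
    exact t5 ⟨p, hp, Pool.Agent.TH926.FFR.hasP_cls t1 (Nat.Coprime.coprime_mul_left t3) hpa, hpy⟩
  · obtain ⟨C, Q0, h⟩ := Pool.Agent.TH926.FFR.almost_all (2 * B + 1) (by linarith) V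
    refine ⟨C, max Q0 2, fun Q hQ A hA => h Q ((le_max_left _ _).trans hQ) ℚ A
      Pool.Agent.TH926.FFR.cls
      (hsep Q ((le_max_right _ _).trans hQ) A fun r hr => ⟨(hA r hr).1, (hA r hr).2.1⟩)
      fun r hr => ?_⟩
    have h3 := (hA r hr).2.2
    unfold AllButMod at h3
    push Not at h3
    obtain ⟨T, hT, hTc⟩ := h3
    refine ⟨T, hTc, fun q hq => ?_⟩
    obtain ⟨t1, t2, t3, t5⟩ := hT q hq
    refine ⟨mem_Icc.2 ⟨t1, t2⟩, Pool.Agent.TH926.FFR.cls_coprime t1 t3, ?_⟩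
    rintro ⟨p, hp, hpa, hpy⟩
    exact t5 ⟨p, hp, Pool.Agent.TH926.FFR.hasP_cls t1 (Nat.Coprime.coprime_mul_left t3) hpa, hpy⟩

end Pool.Agent.Results.MP_e1dc24_nt.FewFixedResidues
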